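import Pool.Agent.P8H33.BV.Rank

set_option autoImplicit false

namespace Pool.Agent.Results.MP_ab9529_ag.BothComponents

open Pool.Agent.P8H33.BV

/-- For `X = ℙ¹ × ℙ²` embedded by `𝒪(2, 2)` and
`F = x_0² (y_0² + y_1²) + x_1² y_2² + (x_0 + x_1)² (y_0 + y_2)²`, the border rank of `F` is `4`, and
the border variety of sums of powers of `F` for `r = 4` has an irreducible component whose general
point is a saturated ideal and an irreducible component whose general point is a nonsaturated
ideal. -/
theorem result :
    F12 ∈ Piece w12 (2, 2) ∧ IsBorderRank w12 B12 (2, 2) F12 4 ∧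
      (∃ K ∈ irreducibleComponents (BVSP w12 B12 F12 4), GenSat w12 B12 F12 4 K) ∧
      (∃ K ∈ irreducibleComponents (BVSP w12 B12 F12 4), GenNonsat w12 B12 F12 4 K) :=
  ⟨F12_mem, borderRank, genSat, genNonsat⟩

end Pool.Agent.Results.MP_ab9529_ag.BothComponents
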